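import Pool.Agent.H58.Tri.U1

/-!
# MP_c17047_co: open triangles that are cells
-/

set_option autoImplicit false

namespace Pool.Agent.H58.Tri

open Pool.H47.Tri Topology Filter

theorem orient_sum (A B C y : Pt) :
    orient A B y + orient B C y + orient C A y = orient A B C := by
  simp only [orient]; ring

theorem continuous_orient (p q : Pt) : Continuous (fun y : Pt => orient p q y) := by
  unfold orient
  fun_prop

theorem hull_eq {A B C : Pt} (h : 0 < orient A B C) :
    convexHull ℝ {A, B, C} = {y : Pt | 0 ≤ orient A B y ∧ 0 ≤ orient B C y ∧ 0 ≤ orient C A y} := by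
  apply Set.Subset.antisymm
  · apply convexHull_min
    · rintro y (rfl | rfl | rfl)
      · refine ⟨by rw [orient_self_left], ?_, by rw [orient_self_right]⟩
        rw [orient_cyc] at h; exact h.le
      · refine ⟨by rw [orient_self_right], by rw [orient_self_left], ?_⟩
        rw [orient_cyc, orient_cyc] at h; exact h.le
      · exact ⟨h.le, by rw [orient_self_right], by rw [orient_self_left]⟩
    · exact (convex_halfplane A B).inter ((convex_halfplane B C).inter (convex_halfplane C A))
  · rintro y ⟨h1, h2, h3⟩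
    have hs := orient_sum A B C y
    have hy : y = ∑ i : Fin 3, (![orient B C y / orient A B C, orient C A y / orient A B C,
        orient A B y / orient A B C] i) • (![A, B, C] i) := by
      simp only [Fin.sum_univ_three, Matrix.cons_val_zero, Matrix.cons_val_one, Matrix.cons_val]
      have hne : orient A B C ≠ 0 := h.ne'
      apply Prod.ext
      · simp only [Prod.fst_add, Prod.smul_fst, smul_eq_mul]
        field_simp
        simp only [orient]; ring
      · simp only [Prod.snd_add, Prod.smul_snd, smul_eq_mul]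
        field_simp
        simp only [orient]; ring
    rw [hy]
    refine (convex_convexHull ℝ _).sum_mem ?_ ?_ ?_
    · intro i _
      fin_cases i
      · exact div_nonneg h2 h.le
      · exact div_nonneg h3 h.le
      · exact div_nonneg h1 h.le
    · simp only [Fin.sum_univ_three, Matrix.cons_val_zero, Matrix.cons_val_one, Matrix.cons_val]
      rw [← add_div, ← add_div, div_eq_one_iff_eq h.ne']
      linarith
    · intro i _
      apply subset_convexHull
      fin_cases i
      · exact Or.inl rfl
      · exact Or.inr (Or.inl rfl)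
      · exact Or.inr (Or.inr rfl)

theorem interior_pos {S : Set Pt} {p q c y : Pt} (hS : ∀ z ∈ S, 0 ≤ orient p q z)
    (hc : 0 < orient p q c) (hy : y ∈ interior S) : 0 < orient p q y := by
  have h0 : 0 ≤ orient p q y := hS y (interior_subset hy)
  rcases h0.lt_or_eq with h | h
  · exact h
  exfalso
  have ht : Tendsto (fun e : ℝ => (1 + e) • y + (-e) • c) (𝓝[>] 0) (𝓝 y) := by
    have h1 : Continuous (fun e : ℝ => (1 + e) • y + (-e) • c) := by fun_prop
    have h2 := (h1.tendsto 0).mono_left (nhdsWithin_le_nhds (s := Set.Ioi 0))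
    simpa using h2
  have h3 := ht.eventually (mem_interior_iff_mem_nhds.1 hy)
  have h4 : ∀ᶠ e : ℝ in 𝓝[>] 0, (0 : ℝ) < e := eventually_mem_nhdsWithin
  obtain ⟨e, he, he0⟩ := (h3.and h4).exists
  have h5 := hS _ he
  rw [orient_comb p q y c (by ring), ← h] at h5
  have h6 : 0 < e * orient p q c := mul_pos he0 hc
  linarith

theorem interior_hull {A B C : Pt} (h : 0 < orient A B C) :
    interior (convexHull ℝ {A, B, C}) =
      {y : Pt | 0 < orient A B y ∧ 0 < orient B C y ∧ 0 < orient C A y} := by
  rw [hull_eq h]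
  apply Set.Subset.antisymm
  · intro y hy
    refine ⟨interior_pos (fun z hz => hz.1) h hy, interior_pos (fun z hz => hz.2.1) (c := A) ?_ hy,
      interior_pos (fun z hz => hz.2.2) (c := B) ?_ hy⟩
    · rw [orient_cyc] at h; exact h
    · rw [orient_cyc, orient_cyc] at h; exact h
  · apply interior_maximal
    · rintro y ⟨h1, h2, h3⟩
      exact ⟨h1.le, h2.le, h3.le⟩
    · exact (isOpen_lt continuous_const (continuous_orient A B)).inter
        ((isOpen_lt continuous_const (continuous_orient B C)).inter
          (isOpen_lt continuous_const (continuous_orient C A)))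

/-- data of a triangular cell: all lines have constant weak sign on the three corners, and every
side lies on a line of the arrangement -/
theorem corner_nonneg {n : ℕ} {P : Fin n → Pt} {x A B C : Pt} (h : 0 < orient A B C)
    (hF : cell P x = interior (convexHull ℝ {A, B, C})) {i j : Fin n} (hij : i ≠ j) :
    0 ≤ orient (P i) (P j) x * orient (P i) (P j) A := by
  by_contra hneg
  push Not at hneg
  rw [interior_hull h] at hF
  -- centroid
  obtain ⟨G, hG⟩ : ∃ G : Pt, G = (1 / 3 : ℝ) • A + (2 / 3 : ℝ) • ((1 / 2 : ℝ) • B + (1 / 2 : ℝ) • C) :=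
    ⟨_, rfl⟩
  have hG1 : ∀ p q : Pt, orient p q G = (orient p q A + orient p q B + orient p q C) / 3 := by
    intro p q
    rw [hG, orient_comb _ _ _ _ (by norm_num), orient_comb _ _ _ _ (by norm_num)]
    ring
  have hABC := h
  have hBCA : 0 < orient B C A := by rw [orient_cyc] at h; exact h
  have hCAB : 0 < orient C A B := by rw [orient_cyc, orient_cyc] at h; exact h
  have e1 : orient A B G = orient A B C / 3 := by
    rw [hG1, orient_self_left, orient_self_right]; ring
  have e2 : orient B C G = orient B C A / 3 := by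
    rw [hG1, orient_self_left, orient_self_right]; ring
  have e3 : orient C A G = orient C A B / 3 := by
    rw [hG1, orient_self_left, orient_self_right]; ring
  have hGm : G ∈ cell P x := by
    rw [hF]
    exact ⟨by rw [e1]; positivity, by rw [e2]; positivity, by rw [e3]; positivity⟩
  have hGp := hGm i j hij
  -- the zero point on the segment `A G`
  obtain ⟨u, hu⟩ : ∃ u, u = orient (P i) (P j) x * orient (P i) (P j) A := ⟨_, rfl⟩
  obtain ⟨w, hw⟩ : ∃ w, w = orient (P i) (P j) x * orient (P i) (P j) G := ⟨_, rfl⟩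
  rw [← hu] at hneg
  rw [← hw] at hGp
  obtain ⟨s, hs⟩ : ∃ s, s = w / (w - u) := ⟨_, rfl⟩
  obtain ⟨t, ht⟩ : ∃ t, t = (-u) / (w - u) := ⟨_, rfl⟩
  have hd : 0 < w - u := by linarith
  have hs0 : 0 < s := by rw [hs]; exact div_pos hGp hd
  have ht0 : 0 < t := by rw [ht]; exact div_pos (by linarith) hd
  have hst : s + t = 1 := by rw [hs, ht, ← add_div, div_eq_one_iff_eq hd.ne']; ring
  have hy : s • A + t • G ∈ cell P x := by
    rw [hF]
    refine ⟨?_, ?_, ?_⟩
    · rw [orient_comb _ _ _ _ hst, orient_self_left, e1]; positivity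
    · rw [orient_comb _ _ _ _ hst, e2]; positivity
    · rw [orient_comb _ _ _ _ hst, orient_self_right, e3]; positivity
  have h1 := hy i j hij
  rw [orient_comb _ _ _ _ hst] at h1
  have h2 : orient (P i) (P j) x * (s * orient (P i) (P j) A + t * orient (P i) (P j) G) =
      s * u + t * w := by rw [hu, hw]; ring
  rw [h2] at h1
  have h3 : s * u + t * w = 0 := by
    rw [hs, ht]; field_simp; ring
  linarith

theorem side_on_line {n : ℕ} {P : Fin n → Pt} {x A B C : Pt} (hx : x ∈ offLines P)
    (h : 0 < orient A B C) (hF : cell P x = interior (convexHull ℝ {A, B, C}))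
    (hB : ∀ i j : Fin n, i ≠ j → 0 ≤ orient (P i) (P j) x * orient (P i) (P j) B)
    (hC : ∀ i j : Fin n, i ≠ j → 0 ≤ orient (P i) (P j) x * orient (P i) (P j) C) :
    ∃ i j : Fin n, i < j ∧ orient (P i) (P j) B = 0 ∧ orient (P i) (P j) C = 0 := by
  have hM : ∀ p q : Pt, orient p q ((1 / 2 : ℝ) • B + (1 / 2 : ℝ) • C) =
      (orient p q B + orient p q C) / 2 := by
    intro p q
    rw [orient_comb _ _ _ _ (by norm_num)]; ring
  have hnot : (1 / 2 : ℝ) • B + (1 / 2 : ℝ) • C ∉ cell P x := by
    rw [hF, interior_hull h]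
    rintro ⟨_, h2, _⟩
    rw [hM, orient_self_left, orient_self_right] at h2
    linarith
  have h1 : ∃ i j : Fin n, i ≠ j ∧
      ¬ 0 < orient (P i) (P j) x * orient (P i) (P j) ((1 / 2 : ℝ) • B + (1 / 2 : ℝ) • C) := by
    by_contra hcon
    push Not at hcon
    exact hnot hcon
  obtain ⟨i, j, hij, h2⟩ := h1
  rw [hM] at h2
  have h3 := hB i j hij
  have h4 := hC i j hij
  have h5 : orient (P i) (P j) x ≠ 0 := hx.2 i j hij
  have h6 : orient (P i) (P j) x * orient (P i) (P j) B = 0 := by
    have : orient (P i) (P j) x * ((orient (P i) (P j) B + orient (P i) (P j) C) / 2) =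
      (orient (P i) (P j) x * orient (P i) (P j) B + orient (P i) (P j) x * orient (P i) (P j) C) / 2 := by
      ring
    rw [this] at h2
    linarith
  have h7 : orient (P i) (P j) x * orient (P i) (P j) C = 0 := by
    have : orient (P i) (P j) x * ((orient (P i) (P j) B + orient (P i) (P j) C) / 2) =
      (orient (P i) (P j) x * orient (P i) (P j) B + orient (P i) (P j) x * orient (P i) (P j) C) / 2 := by
      ring
    rw [this] at h2
    linarith
  have h8 := (mul_eq_zero.1 h6).resolve_left h5
  have h9 := (mul_eq_zero.1 h7).resolve_left h5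
  rcases lt_or_gt_of_ne hij with hlt | hgt
  · exact ⟨i, j, hlt, h8, h9⟩
  · refine ⟨j, i, hgt, ?_, ?_⟩
    · rw [orient_swap, h8, neg_zero]
    · rw [orient_swap, h9, neg_zero]

/-- everything we need about a triangular cell -/
theorem tri_data {n : ℕ} {P : Fin n → Pt} {x A B C : Pt} (hx : x ∈ offLines P)
    (h : 0 < orient A B C) (hF : cell P x = interior (convexHull ℝ {A, B, C})) :
    (∀ i j : Fin n, i ≠ j → 0 ≤ orient (P i) (P j) x * orient (P i) (P j) A) ∧
    (∀ i j : Fin n, i ≠ j → 0 ≤ orient (P i) (P j) x * orient (P i) (P j) B) ∧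
    (∀ i j : Fin n, i ≠ j → 0 ≤ orient (P i) (P j) x * orient (P i) (P j) C) ∧
    (∃ i j : Fin n, i < j ∧ orient (P i) (P j) B = 0 ∧ orient (P i) (P j) C = 0) ∧
    (∃ i j : Fin n, i < j ∧ orient (P i) (P j) C = 0 ∧ orient (P i) (P j) A = 0) ∧
    (∃ i j : Fin n, i < j ∧ orient (P i) (P j) A = 0 ∧ orient (P i) (P j) B = 0) := by
  have s1 : ({A, B, C} : Set Pt) = {B, C, A} := by
    ext z; simp only [Set.mem_insert_iff, Set.mem_singleton_iff]; tauto
  have s2 : ({A, B, C} : Set Pt) = {C, A, B} := by
    ext z; simp only [Set.mem_insert_iff, Set.mem_singleton_iff]; tauto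
  have hBCA : 0 < orient B C A := by rw [orient_cyc] at h; exact h
  have hCAB : 0 < orient C A B := by rw [orient_cyc, orient_cyc] at h; exact h
  have hF1 : cell P x = interior (convexHull ℝ {B, C, A}) := by rw [hF, s1]
  have hF2 : cell P x = interior (convexHull ℝ {C, A, B}) := by rw [hF, s2]
  have a1 : ∀ i j : Fin n, i ≠ j → 0 ≤ orient (P i) (P j) x * orient (P i) (P j) A :=
    fun i j hij => corner_nonneg h hF hij
  have a2 : ∀ i j : Fin n, i ≠ j → 0 ≤ orient (P i) (P j) x * orient (P i) (P j) B :=
    fun i j hij => corner_nonneg hBCA hF1 hij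
  have a3 : ∀ i j : Fin n, i ≠ j → 0 ≤ orient (P i) (P j) x * orient (P i) (P j) C :=
    fun i j hij => corner_nonneg hCAB hF2 hij
  exact ⟨a1, a2, a3, side_on_line hx h hF a2 a3, side_on_line hx hBCA hF1 a3 a1,
    side_on_line hx hCAB hF2 a1 a2⟩

end Pool.Agent.H58.Tri
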