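import Pool.Agent.H47.Tri.Defs

/-!
# MP_c17047_co: basic facts on `orient`, and convexity of counterclockwise polygons
-/

set_option autoImplicit false

namespace Pool.Agent.H58.Tri

open Pool.H47.Tri

theorem orient_comb (p q a b : Pt) {s t : ℝ} (h : s + t = 1) :
    orient p q (s • a + t • b) = s * orient p q a + t * orient p q b := by
  have ht : t = 1 - s := by linarith
  subst ht
  simp only [orient, Prod.fst_add, Prod.snd_add, Prod.smul_fst, Prod.smul_snd, smul_eq_mul]
  ring

theorem orient_cyc (p q r : Pt) : orient p q r = orient q r p := by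
  simp only [orient]; ring

theorem orient_swap (p q r : Pt) : orient q p r = - orient p q r := by
  simp only [orient]; ring

theorem orient_swap' (p q r : Pt) : orient p r q = - orient p q r := by
  simp only [orient]; ring

theorem orient_self_left (p q : Pt) : orient p q p = 0 := by
  simp only [orient]; ring

theorem orient_self_right (p q : Pt) : orient p q q = 0 := by
  simp only [orient]; ring

theorem convex_halfplane (p q : Pt) : Convex ℝ {y : Pt | 0 ≤ orient p q y} := by
  intro a ha b hb s t hs ht hst
  simp only [Set.mem_setOf_eq] at ha hb ⊢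
  rw [orient_comb p q a b hst]
  exact add_nonneg (mul_nonneg hs ha) (mul_nonneg ht hb)

/-- separation criterion for convex independence -/
theorem convexIndependent_of_sep {n : ℕ} {P : Fin n → Pt}
    (h : ∀ i, ∃ p q : Pt, orient p q (P i) < 0 ∧ ∀ k, k ≠ i → 0 ≤ orient p q (P k)) :
    ConvexIndependent ℝ P := by
  intro s i hi
  by_contra hn
  obtain ⟨p, q, h1, h2⟩ := h i
  have h3 : convexHull ℝ (P '' s) ⊆ {y : Pt | 0 ≤ orient p q y} := by
    apply convexHull_min _ (convex_halfplane p q)
    rintro _ ⟨k, hk, rfl⟩
    exact h2 k (fun e => hn (e ▸ hk))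
  have h4 := h3 hi
  simp only [Set.mem_setOf_eq] at h4
  linarith

/-- U1 -/
theorem ccw_convex {n : ℕ} (hn : 3 ≤ n) {P : Fin n → Pt} (h : Ccw P) : IsConvexDrawing P := by
  apply convexIndependent_of_sep
  intro i
  by_cases h0 : i.val = 0
  · -- line (n-1, 1)
    refine ⟨P ⟨n - 1, by omega⟩, P ⟨1, by omega⟩, ?_, ?_⟩
    · have e := h i ⟨1, by omega⟩ ⟨n - 1, by omega⟩ (by simp only [Fin.lt_def]; omega)
        (by simp only [Fin.lt_def]; omega)
      rw [orient_cyc, orient_swap' (P ⟨1, _⟩)]
      rw [orient_cyc] at e
      linarith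
    · intro k hk
      have hk0 : k.val ≠ 0 := fun e => hk (Fin.ext (by omega))
      by_cases hk1 : k.val = 1
      · have : k = ⟨1, by omega⟩ := Fin.ext hk1
        rw [this, orient_self_right]
      by_cases hkn : k.val = n - 1
      · have : k = ⟨n - 1, by omega⟩ := Fin.ext hkn
        rw [this, orient_self_left]
      have e := h ⟨1, by omega⟩ k ⟨n - 1, by omega⟩ (by simp only [Fin.lt_def]; omega)
        (by simp only [Fin.lt_def]; omega)
      rw [orient_cyc]
      exact e.le
  by_cases h1 : i.val = n - 1
  · -- line (n-2, 0)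
    refine ⟨P ⟨n - 2, by omega⟩, P ⟨0, by omega⟩, ?_, ?_⟩
    · have e := h ⟨0, by omega⟩ ⟨n - 2, by omega⟩ i (by simp only [Fin.lt_def]; omega)
        (by simp only [Fin.lt_def]; omega)
      rw [orient_swap]
      linarith
    · intro k hk
      have hk0 : k.val ≠ n - 1 := fun e => hk (Fin.ext (by omega))
      have hkn := k.isLt
      by_cases hk1 : k.val = 0
      · have : k = ⟨0, by omega⟩ := Fin.ext hk1
        rw [this, orient_self_right]
      by_cases hk2 : k.val = n - 2
      · have : k = ⟨n - 2, by omega⟩ := Fin.ext hk2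
        rw [this, orient_self_left]
      have e := h ⟨0, by omega⟩ k ⟨n - 2, by omega⟩ (by simp only [Fin.lt_def]; omega)
        (by simp only [Fin.lt_def]; omega)
      rw [orient_cyc]
      exact e.le
  · have hi := i.isLt
    refine ⟨P ⟨i.val - 1, by omega⟩, P ⟨i.val + 1, by omega⟩, ?_, ?_⟩
    · have e := h ⟨i.val - 1, by omega⟩ i ⟨i.val + 1, by omega⟩ (by simp only [Fin.lt_def]; omega)
        (by simp only [Fin.lt_def]; omega)
      rw [orient_swap']
      linarith
    · intro k hk
      have hki : k.val ≠ i.val := fun e => hk (Fin.ext e)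
      have hkn := k.isLt
      by_cases hk1 : k.val = i.val - 1
      · have : k = ⟨i.val - 1, by omega⟩ := Fin.ext hk1
        rw [this, orient_self_left]
      by_cases hk2 : k.val = i.val + 1
      · have : k = ⟨i.val + 1, by omega⟩ := Fin.ext hk2
        rw [this, orient_self_right]
      rcases lt_or_gt_of_ne hki with hlt | hgt
      · have e := h k ⟨i.val - 1, by omega⟩ ⟨i.val + 1, by omega⟩ (by simp only [Fin.lt_def]; omega)
          (by simp only [Fin.lt_def]; omega)
        rw [orient_cyc] at e
        exact e.le
      · have e := h ⟨i.val - 1, by omega⟩ ⟨i.val + 1, by omega⟩ k (by simp only [Fin.lt_def]; omega)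
          (by simp only [Fin.lt_def]; omega)
        exact e.le

end Pool.Agent.H58.Tri
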