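import Pool.Agent.H58.Tri.Par

/-!
# MP_c17047_co: the drawing `(10^i, 100^i)` has at most `(n-2)^2 + C(n-3,2)` triangular faces
-/

set_option autoImplicit false

namespace Pool.Agent.H58.Tri

open Pool.H47.Tri

/-- nonnegativity of the corner `A` of the cell of `x` -/
def Cor (n : ℕ) (x A : Pt) : Prop :=
  ∀ i j : Fin n, i ≠ j → 0 ≤ orient (PP n i) (PP n j) x * orient (PP n i) (PP n j) A

theorem cut {n : ℕ} {x : Pt} (hx : x ∈ offLines (PP n)) {A B : Pt} (hA : Cor n x A)
    (hB : Cor n x B) {i j : ℕ} (hij : i < j) (hj : j < n) (h1 : 0 < g i j A) (h2 : g i j B < 0) :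
    False := by
  have hne : (⟨i, by omega⟩ : Fin n) ≠ ⟨j, hj⟩ := fun e => by
    have := Fin.mk.inj_iff.1 e; omega
  have a := hA _ _ hne
  have b := hB _ _ hne
  have c := hx.2 _ _ hne
  have hX := X_lt hij
  rw [orient_PP ⟨i, _⟩ ⟨j, _⟩ A] at a
  rw [orient_PP ⟨i, _⟩ ⟨j, _⟩ B] at b
  simp only at a b
  have p1 : 0 < (X j - X i) * g i j A := mul_pos (by linarith) h1
  have p2 : 0 < (X j - X i) * (- g i j B) := mul_pos (by linarith) (by linarith)
  rcases lt_or_gt_of_ne c with hc | hc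
  · have := mul_pos (neg_pos.2 hc) p1
    linarith
  · have := mul_pos hc p2
    linarith

theorem side_low {n : ℕ} {x : Pt} (hx : x ∈ offLines (PP n)) {A : Pt}
    (hA : Cor n x A) {k : ℕ} (hk : k + 1 < n) : 0 ≤ g k (k + 1) A := by
  have hne : (⟨k, by omega⟩ : Fin n) ≠ ⟨k + 1, hk⟩ := fun e => by
    have := Fin.mk.inj_iff.1 e; omega
  have h1 : 0 < orient (PP n ⟨k, by omega⟩) (PP n ⟨k + 1, hk⟩) x := by
    apply hx.1 _ _ hne
    intro m hm1 hm2
    have hm1' : m.val ≠ k := fun e => hm1 (Fin.ext e)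
    have hm2' : m.val ≠ k + 1 := fun e => hm2 (Fin.ext e)
    rcases lt_or_gt_of_ne hm1' with h | h
    · rw [orient_cyc, orient_cyc]
      exact ccw_PP n _ _ _ (by simp only [Fin.lt_def]; omega) (by simp only [Fin.lt_def]; omega)
    · exact ccw_PP n _ _ _ (by simp only [Fin.lt_def]; omega) (by simp only [Fin.lt_def]; omega)
  have h2 := hA _ _ hne
  have h3 : 0 ≤ orient (PP n ⟨k, by omega⟩) (PP n ⟨k + 1, hk⟩) A := nonneg_of_mul_nonneg_right h2 h1
  rw [orient_PP] at h3
  simp only at h3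
  have hX := X_lt (Nat.lt_succ_self k)
  exact nonneg_of_mul_nonneg_right h3 (by simpa using hX)

theorem side_top {n : ℕ} (hn : 3 ≤ n) {x : Pt} (hx : x ∈ offLines (PP n)) {A : Pt}
    (hA : Cor n x A) : g 0 (n - 1) A ≤ 0 := by
  have hne : (⟨n - 1, by omega⟩ : Fin n) ≠ ⟨0, by omega⟩ := fun e => by
    have := Fin.mk.inj_iff.1 e; omega
  have h1 : 0 < orient (PP n ⟨n - 1, by omega⟩) (PP n ⟨0, by omega⟩) x := by
    apply hx.1 _ _ hne
    intro m hm1 hm2
    have hm1' : m.val ≠ n - 1 := fun e => hm1 (Fin.ext e)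
    have hm2' : m.val ≠ 0 := fun e => hm2 (Fin.ext e)
    have := m.isLt
    rw [orient_cyc]
    exact ccw_PP n _ _ _ (by simp only [Fin.lt_def]; omega) (by simp only [Fin.lt_def]; omega)
  have h2 := hA _ _ hne
  have h3 : 0 ≤ orient (PP n ⟨n - 1, by omega⟩) (PP n ⟨0, by omega⟩) A :=
    nonneg_of_mul_nonneg_right h2 h1
  rw [orient_PP] at h3
  simp only at h3
  rw [g_comm] at h3
  have hX := X_lt (show 0 < n - 1 by omega)
  by_contra hcon
  push Not at hcon
  have := mul_pos (sub_pos.2 hX) hcon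
  linarith

theorem pos_of_line {n : ℕ} (hn : 3 ≤ n) {x : Pt} (hx : x ∈ offLines (PP n)) {A : Pt}
    (hA : Cor n x A) {i j : ℕ} (hij : i < j) (hj : j < n) (h : g i j A = 0) :
    X i ≤ A.1 ∧ A.1 ≤ X j := by
  have hlow := fun k (hk : k + 1 < n) => side_low hx hA hk
  have htop := side_top hn hx hA
  have hXij := X_lt hij
  rw [g_prod] at h htop
  constructor
  · by_contra hcon
    push Not at hcon
    rcases Nat.eq_zero_or_pos i with rfl | hi
    · rcases Nat.lt_or_ge j (n - 1) with hjn | hjn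
      · have hX := X_lt hjn
        have := mul_pos (show 0 < X 0 - A.1 by linarith) (show 0 < X (n - 1) - X j by linarith)
        nlinarith
      · have e : j = n - 1 := by omega
        subst e
        have hX := X_lt (show 1 < n - 1 by omega)
        have h1 := hlow 0 (by omega)
        rw [g_prod] at h1
        simp only [Nat.zero_add] at h1
        have := mul_pos (show 0 < X 0 - A.1 by linarith) (show 0 < X (n - 1) - X 1 by linarith)
        nlinarith
    · have h1 := hlow (i - 1) (by omega)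
      rw [g_prod, show i - 1 + 1 = i by omega] at h1
      have hX := X_lt (show i - 1 < j by omega)
      have := mul_pos (show 0 < X i - A.1 by linarith) (show 0 < X j - X (i - 1) by linarith)
      nlinarith
  · by_contra hcon
    push Not at hcon
    rcases Nat.lt_or_ge (j + 1) n with hjn | hjn
    · have h1 := hlow j hjn
      rw [g_prod] at h1
      have hX := X_lt (show i < j + 1 by omega)
      have := mul_pos (show 0 < A.1 - X j by linarith) (show 0 < X (j + 1) - X i by linarith)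
      nlinarith
    · have e : j = n - 1 := by omega
      subst e
      rcases Nat.eq_zero_or_pos i with rfl | hi
      · have h1 := hlow (n - 2) (by omega)
        rw [g_prod, show n - 2 + 1 = n - 1 by omega] at h1
        have hX := X_lt (show 0 < n - 2 by omega)
        have := mul_pos (show 0 < A.1 - X (n - 1) by linarith) (show 0 < X (n - 2) - X 0 by linarith)
        nlinarith
      · have hX := X_lt hi
        have := mul_pos (show 0 < A.1 - X (n - 1) by linarith) (show 0 < X i - X 0 by linarith)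
        nlinarith

theorem g_diff_right (i j l : ℕ) (y : Pt) : g i l y = g i j y + (X l - X j) * (X i - y.1) := by
  simp only [g]; ring

theorem g_diff_left (i k j : ℕ) (y : Pt) : g k j y = g i j y + (X k - X i) * (X j - y.1) := by
  simp only [g]; ring

/-- the classification of interior triangular cells -/
theorem sorted_case {n : ℕ} (hn : 3 ≤ n) {x : Pt} (hx : x ∈ offLines (PP n)) {U V W : Pt}
    (hU : Cor n x U) (hV : Cor n x V) (hW : Cor n x W) {i j k l r s : ℕ} (hij : i < j)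
    (hkl : k < l) (hrs : r < s) (hj : j < n) (hl : l < n) (hs : s < n)
    (u1 : g i j U = 0) (u2 : g k l U = 0) (v1 : g i j V = 0) (v2 : g r s V = 0)
    (w1 : g k l W = 0) (w2 : g r s W = 0) (hik : i < k) (hkr : k < r)
    (hkj : k ≠ j) (hrj : r ≠ j) (hrl : r ≠ l) (hjl : j ≠ l) (hls : l ≠ s) (hjs : j ≠ s) :
    i = 0 ∧ s = n - 1 ∧ l = j + 1 ∧ r = k + 1 ∧ r < j ∧ l < s := by
  obtain ⟨pu1, pu2⟩ := pos_of_line hn hx hU hij hj u1
  obtain ⟨pu3, pu4⟩ := pos_of_line hn hx hU hkl hl u2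
  obtain ⟨pv1, pv2⟩ := pos_of_line hn hx hV hij hj v1
  obtain ⟨pv3, pv4⟩ := pos_of_line hn hx hV hrs hs v2
  obtain ⟨pw1, pw2⟩ := pos_of_line hn hx hW hkl hl w1
  obtain ⟨pw3, pw4⟩ := pos_of_line hn hx hW hrs hs w2
  obtain ⟨a1, a2⟩ := alternate u1 u2 hik pu2 pu3 pu4 hkj hjl
  obtain ⟨b1, b2⟩ := alternate w1 w2 hkr pw2 pw3 pw4 hrl hls
  obtain ⟨c1, c2⟩ := alternate v1 v2 (hik.trans hkr) pv2 pv3 pv4 hrj hjs
  -- strict inequalities
  have eU : (U.1 - X i) * (U.1 - X j) = (U.1 - X k) * (U.1 - X l) := by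
    rw [g_prod] at u1 u2; linarith
  have eW : (W.1 - X k) * (W.1 - X l) = (W.1 - X r) * (W.1 - X s) := by
    rw [g_prod] at w1 w2; linarith
  have sU1 : U.1 < X j := by
    refine lt_of_le_of_ne pu2 (fun e => ?_)
    rw [e] at eU
    have := mul_pos (sub_pos.2 (X_lt a1)) (sub_pos.2 (X_lt a2))
    nlinarith
  have sU2 : X k < U.1 := by
    refine lt_of_le_of_ne pu3 (fun e => ?_)
    rw [← e] at eU
    have := mul_pos (sub_pos.2 (X_lt hik)) (sub_pos.2 (X_lt a1))
    nlinarith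
  have sW : X r < W.1 := by
    refine lt_of_le_of_ne pw3 (fun e => ?_)
    rw [← e] at eW
    have := mul_pos (sub_pos.2 (X_lt hkr)) (sub_pos.2 (X_lt b1))
    nlinarith
  have k1 : i = 0 := by
    by_contra hi
    have hi' : i - 1 < i := by omega
    have h1 := S1 (a := i - 1) (by omega) hkr c1 a2 b2 w1 w2
    have h2 : g (i - 1) j U < 0 := by
      rw [g_diff_left i (i - 1) j U, u1]
      have := mul_pos (sub_pos.2 (X_lt hi')) (sub_pos.2 sU1)
      linarith
    exact cut hx hW hU (by omega) hj h1 h2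
  have k2 : s = n - 1 := by
    by_contra hs'
    have h1 := S2 (f := s + 1) hik hkr c1 a2 (by omega) u1 u2
    have h2 : g r (s + 1) W < 0 := by
      rw [g_diff_right r s (s + 1) W, w2]
      have := mul_pos (sub_pos.2 (X_lt (Nat.lt_succ_self s))) (sub_pos.2 sW)
      linarith
    exact cut hx hU hW (by omega) (by omega) h1 h2
  have k3 : l = j + 1 := by
    by_contra hl'
    have hl'' : l - 1 < l := by omega
    have h1 := S3 (e := l - 1) hik hkr c1 (by omega) (by omega) v1 v2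
    have h2 : 0 < g k (l - 1) U := by
      rw [g_diff_right k l (l - 1) U, u2]
      have := mul_pos (sub_pos.2 (X_lt hl'')) (sub_pos.2 sU2)
      linarith
    exact cut hx hU hV (by omega) (by omega) h2 h1
  have k4 : r = k + 1 := by
    by_contra hr'
    have h1 := S3 (b := k + 1) (by omega) (by omega) c1 a2 b2 v1 v2
    have h2 : 0 < g (k + 1) l U := by
      rw [g_diff_left k (k + 1) l U, u2]
      have h3 : U.1 < X l := sU1.trans (X_lt a2)
      have := mul_pos (sub_pos.2 (X_lt (Nat.lt_succ_self k))) (sub_pos.2 h3)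
      linarith
    exact cut hx hU hV (by omega) hl h2 h1
  exact ⟨k1, k2, k3, k4, c1, b2⟩

/-- `F` is the triangle bounded by the chords `(0, d)`, `(b, d+1)`, `(b+1, n-1)`. -/
def CRel (n : ℕ) (F : Set Pt) (b d : ℕ) : Prop :=
  ∃ U V W : Pt, g 0 d U = 0 ∧ g b (d + 1) U = 0 ∧ g 0 d V = 0 ∧ g (b + 1) (n - 1) V = 0 ∧
    g b (d + 1) W = 0 ∧ g (b + 1) (n - 1) W = 0 ∧ F = interior (convexHull ℝ {U, V, W})

theorem inter_unique {i j k l : ℕ} {y z : Pt} (h : X i + X j ≠ X k + X l) (y1 : g i j y = 0)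
    (y2 : g k l y = 0) (z1 : g i j z = 0) (z2 : g k l z = 0) : y = z := by
  simp only [g] at y1 y2 z1 z2
  have e1 : (X i + X j - (X k + X l)) * (y.1 - z.1) = 0 := by linarith
  have e2 : y.1 - z.1 = 0 := (mul_eq_zero.1 e1).resolve_left (sub_ne_zero.2 h)
  have e3 : y.1 = z.1 := by linarith
  refine Prod.ext e3 ?_
  rw [e3] at y1
  linarith

theorem CRel_unique {n : ℕ} {F F' : Set Pt} {b d : ℕ} (hb : 1 ≤ b) (hd : d + 2 < n)
    (h : CRel n F b d) (h' : CRel n F' b d) : F = F' := by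
  obtain ⟨U, V, W, a1, a2, a3, a4, a5, a6, rfl⟩ := h
  obtain ⟨U', V', W', b1, b2, b3, b4, b5, b6, rfl⟩ := h'
  have x1 := X_lt (show 0 < b by omega)
  have x2 := X_lt (Nat.lt_succ_self d)
  have x3 := X_lt (Nat.lt_succ_self b)
  have x4 := X_lt (show d + 1 < n - 1 by omega)
  simp only [Nat.succ_eq_add_one] at x2 x3
  have e1 : U = U' := inter_unique (by linarith) a1 a2 b1 b2
  have e2 : V = V' := inter_unique (by linarith) a3 a4 b3 b4
  have e3 : W = W' := inter_unique (by linarith) a5 a6 b5 b6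
  rw [e1, e2, e3]

theorem collinear_zero {i j : ℕ} {A B C : Pt} (hA : g i j A = 0) (hB : g i j B = 0)
    (hC : g i j C = 0) : orient A B C = 0 := by
  simp only [g] at hA hB hC
  have a : A.2 = (X i + X j) * A.1 - X i * X j := by linarith
  have b : B.2 = (X i + X j) * B.1 - X i * X j := by linarith
  have c : C.2 = (X i + X j) * C.1 - X i * X j := by linarith
  simp only [orient]
  rw [a, b, c]
  ring

theorem g_of_orient {n : ℕ} {i j : Fin n} (hij : i < j) {y : Pt}
    (h : orient (PP n i) (PP n j) y = 0) : g i j y = 0 := by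
  rw [orient_PP] at h
  have := X_lt (show (i : ℕ) < j from hij)
  exact (mul_eq_zero.1 h).resolve_left (by linarith)

/-- two lines of the arrangement meeting outside the vertices have no common index -/
theorem disjoint_lines {n : ℕ} {i j k l : Fin n} (hij : i < j) (hkl : k < l) {y : Pt}
    (hy : y ∉ Set.range (PP n)) (h1 : g i j y = 0) (h2 : g k l y = 0) (hne : (i, j) ≠ (k, l)) :
    (i : ℕ) ≠ k ∧ (i : ℕ) ≠ l ∧ (j : ℕ) ≠ k ∧ (j : ℕ) ≠ l := by
  have sh : ∀ (m p q : Fin n), g m p y = 0 → g m q y = 0 → p = q := by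
    intro m p q e1 e2
    by_contra hpq
    apply hy
    refine ⟨m, ?_⟩
    rw [share e1 e2 (fun e => hpq (Fin.ext e))]
    rfl
  refine ⟨?_, ?_, ?_, ?_⟩
  · intro e
    have e' : i = k := Fin.ext e
    subst e'
    exact hne (by rw [sh i j l h1 h2])
  · intro e
    have e' : i = l := Fin.ext e
    subst e'
    rw [g_comm] at h2
    have := sh i j k h1 h2
    subst this
    exact absurd hij (not_lt.2 hkl.le)
  · intro e
    have e' : j = k := Fin.ext e
    subst e'
    rw [g_comm] at h1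
    have := sh j i l h1 h2
    subst this
    exact absurd hij (not_lt.2 hkl.le)
  · intro e
    have e' : j = l := Fin.ext e
    subst e'
    rw [g_comm] at h1 h2
    exact hne (by rw [sh j i k h1 h2])

/-- the classification of triangular cells -/
theorem classify {n : ℕ} (hn : 4 ≤ n) {x : Pt} (hx : x ∈ offLines (PP n)) {A B C : Pt}
    (h : 0 < orient A B C) (hF : cell (PP n) x = interior (convexHull ℝ {A, B, C})) :
    (∃ v' < n, ∃ w, 1 ≤ w ∧ w + 3 ≤ n ∧ VRel (PP n) (by omega) (cell (PP n) x) v' w) ∨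
    (∃ b d, 1 ≤ b ∧ b + 2 ≤ d ∧ d + 3 ≤ n ∧ CRel n (cell (PP n) x) b d) := by
  obtain ⟨cA, cB, cC, ⟨i1, j1, o1, a1, a2⟩, ⟨i2, j2, o2, a3, a4⟩, ⟨i3, j3, o3, a5, a6⟩⟩ :=
    tri_data hx h hF
  by_cases hvA : A ∈ Set.range (PP n)
  · obtain ⟨v, rfl⟩ := hvA
    exact Or.inl (vertex_index hn (ccw_PP n) hx v cA)
  by_cases hvB : B ∈ Set.range (PP n)
  · obtain ⟨v, rfl⟩ := hvB
    exact Or.inl (vertex_index hn (ccw_PP n) hx v cB)
  by_cases hvC : C ∈ Set.range (PP n)
  · obtain ⟨v, rfl⟩ := hvC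
    exact Or.inl (vertex_index hn (ccw_PP n) hx v cC)
  right
  have b1 := g_of_orient o1 a1
  have b2 := g_of_orient o1 a2
  have b3 := g_of_orient o2 a3
  have b4 := g_of_orient o2 a4
  have b5 := g_of_orient o3 a5
  have b6 := g_of_orient o3 a6
  have n12 : (i1, j1) ≠ (i2, j2) := by
    intro e
    obtain ⟨rfl, rfl⟩ := Prod.mk.inj e
    have := collinear_zero b4 b1 b2
    linarith
  have n13 : (i1, j1) ≠ (i3, j3) := by
    intro e
    obtain ⟨rfl, rfl⟩ := Prod.mk.inj e
    have := collinear_zero b5 b1 b2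
    linarith
  have n23 : (i2, j2) ≠ (i3, j3) := by
    intro e
    obtain ⟨rfl, rfl⟩ := Prod.mk.inj e
    have := collinear_zero b4 b6 b3
    linarith
  obtain ⟨p1, p2, p3, p4⟩ := disjoint_lines o1 o2 hvC b2 b3 n12
  obtain ⟨q1, q2, q3, q4⟩ := disjoint_lines o1 o3 hvB b1 b6 n13
  obtain ⟨t1, t2, t3, t4⟩ := disjoint_lines o2 o3 hvA b4 b5 n23
  have o1' : (i1 : ℕ) < j1 := o1
  have o2' : (i2 : ℕ) < j2 := o2
  have o3' : (i3 : ℕ) < j3 := o3
  -- conclusion from a sorted triple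
  have fin : ∀ (U V W : Pt) (i j k l r s : ℕ), Cor n x U → Cor n x V → Cor n x W → i < j → k < l →
      r < s → j < n → l < n → s < n → g i j U = 0 → g k l U = 0 → g i j V = 0 → g r s V = 0 →
      g k l W = 0 → g r s W = 0 → i < k → k < r → k ≠ j → r ≠ j → r ≠ l → j ≠ l → l ≠ s →
      j ≠ s → ({A, B, C} : Set Pt) = {U, V, W} →
      ∃ b d, 1 ≤ b ∧ b + 2 ≤ d ∧ d + 3 ≤ n ∧ CRel n (cell (PP n) x) b d := by
    intro U V W i j k l r s hU hV hW hij hkl hrs hj hl hs u1 u2 v1 v2 w1 w2 hik hkr hkj hrj hrl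
      hjl hls hjs hset
    obtain ⟨e1, e2, e3, e4, e5, e6⟩ := sorted_case (by omega) hx hU hV hW hij hkl hrs hj hl hs u1
      u2 v1 v2 w1 w2 hik hkr hkj hrj hrl hjl hls hjs
    subst e1 e2 e3 e4
    refine ⟨k, j, by omega, by omega, by omega, U, V, W, u1, u2, v1, v2, w1, w2, ?_⟩
    rw [hF, hset]
  rcases lt_or_gt_of_ne p1 with r1 | r1 <;> rcases lt_or_gt_of_ne q1 with r2 | r2 <;>
    rcases lt_or_gt_of_ne t1 with r3 | r3
  · -- i1 < i2 < i3
    exact fin C B A i1 j1 i2 j2 i3 j3 cC cB cA o1' o2' o3' j1.2 j2.2 j3.2 b2 b3 b1 b6 b4 b5 r1 r3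
      (Ne.symm p3) (Ne.symm q3) (Ne.symm t3) p4 t4 q4
      (by ext z; simp only [Set.mem_insert_iff, Set.mem_singleton_iff]; try tauto)
  · -- i1 < i3 < i2
    exact fin B C A i1 j1 i3 j3 i2 j2 cB cC cA o1' o3' o2' j1.2 j3.2 j2.2 b1 b6 b2 b3 b5 b4 r2 r3
      (Ne.symm q3) (Ne.symm p3) t2 q4 (Ne.symm t4) p4
      (by ext z; simp only [Set.mem_insert_iff, Set.mem_singleton_iff]; try tauto)
  · omega
  · -- i3 < i1 < i2
    exact fin B A C i3 j3 i1 j1 i2 j2 cB cA cC o3' o1' o2' j3.2 j1.2 j2.2 b6 b1 b5 b4 b2 b3 r2 r1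
      q2 t2 (Ne.symm p3) (Ne.symm q4) p4 (Ne.symm t4)
      (by ext z; simp only [Set.mem_insert_iff, Set.mem_singleton_iff]; try tauto)
  · -- i2 < i1 < i3
    exact fin C A B i2 j2 i1 j1 i3 j3 cC cA cB o2' o1' o3' j2.2 j1.2 j3.2 b3 b2 b4 b5 b1 b6 r1 r2
      p2 (Ne.symm t3) (Ne.symm q3) (Ne.symm p4) q4 t4
      (by ext z; simp only [Set.mem_insert_iff, Set.mem_singleton_iff]; try tauto)
  · omega
  · -- i2 < i3 < i1
    exact fin A C B i2 j2 i3 j3 i1 j1 cA cC cB o2' o3' o1' j2.2 j3.2 j1.2 b4 b5 b3 b2 b6 b1 r3 r2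
      (Ne.symm t3) p2 q2 t4 (Ne.symm q4) (Ne.symm p4)
      (by ext z; simp only [Set.mem_insert_iff, Set.mem_singleton_iff]; try tauto)
  · -- i3 < i2 < i1
    exact fin A B C i3 j3 i2 j2 i1 j1 cA cB cC o3' o2' o1' j3.2 j2.2 j1.2 b5 b4 b6 b1 b3 b2 r3 r1
      t2 q2 p2 (Ne.symm t4) (Ne.symm p4) (Ne.symm q4)
      (by ext z; simp only [Set.mem_insert_iff, Set.mem_singleton_iff]; try tauto)

/-- counting with a relation -/
theorem encard_le_of_rel {α ι : Type*} {s : Set α} {J : Finset ι} {R : α → ι → Prop}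
    (h1 : ∀ a ∈ s, ∃ i ∈ J, R a i) (h2 : ∀ a b : α, ∀ i ∈ J, R a i → R b i → a = b) :
    s.encard ≤ (J.card : ℕ∞) := by
  classical
  rcases isEmpty_or_nonempty ι with hι | hι
  · have : s = ∅ := by
      by_contra hne
      obtain ⟨a, ha⟩ := Set.nonempty_iff_ne_empty.2 hne
      obtain ⟨i, _⟩ := h1 a ha
      exact hι.elim i
    rw [this]; simp
  choose! f hf using h1
  have h3 : s.encard ≤ (J : Set ι).encard := by
    apply Set.encard_le_encard_of_injOn (f := f)
    · intro a ha; exact (hf a ha).1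
    · intro a ha b hb e
      have h4 := (hf b hb).2
      rw [← e] at h4
      exact h2 a b (f a) (hf a ha).1 (hf a ha).2 h4
  rwa [Set.encard_coe_eq_coe_finsetCard] at h3

/-- U2 (upper bound for the special drawing) -/
theorem few_PP {n : ℕ} (hn : 3 ≤ n)
    (hT : ∀ F, IsFace (PP n) F ↔ ∃ x ∈ offLines (PP n), F = cell (PP n) x) :
    numTri (PP n) ≤ (((n - 2) ^ 2 + (n - 3).choose 2 : ℕ) : ℕ∞) := by
  classical
  rcases Nat.eq_or_lt_of_le hn with rfl | hn4
  · -- n = 3
    have h1 : numTri (PP 3) ≤ 1 := by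
      unfold numTri
      rw [Set.encard_le_one_iff]
      rintro F F' ⟨hF, _⟩ ⟨hF', _⟩
      obtain ⟨x, hx, rfl⟩ := (hT F).1 hF
      obtain ⟨y, hy, rfl⟩ := (hT F').1 hF'
      exact cell_three (ccw_PP 3) hx hy
    simpa using h1
  have hn0 : 0 < n := by omega
  let s1 : Set (Set Pt) := {F | ∃ v' < n, ∃ w, 1 ≤ w ∧ w + 3 ≤ n ∧ VRel (PP n) hn0 F v' w}
  let s2 : Set (Set Pt) := {F | ∃ b d, 1 ≤ b ∧ b + 2 ≤ d ∧ d + 3 ≤ n ∧ CRel n F b d}
  have hsub : triFaces (PP n) ⊆ s1 ∪ s2 := by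
    rintro F ⟨hF, A, B, C, hABC, hFe⟩
    obtain ⟨x, hx, rfl⟩ := (hT F).1 hF
    rcases lt_or_gt_of_ne hABC with hneg | hpos
    · have h1 : 0 < orient A C B := by rw [orient_swap']; linarith
      have h2 : ({A, B, C} : Set Pt) = {A, C, B} := by
        ext z; simp only [Set.mem_insert_iff, Set.mem_singleton_iff]; tauto
      rw [h2] at hFe
      exact classify hn4 hx h1 hFe
    · exact classify hn4 hx hpos hFe
  have c1 : s1.encard ≤ (((Finset.range n) ×ˢ (Finset.range (n - 3))).card : ℕ∞) := by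
    apply encard_le_of_rel (R := fun F p => VRel (PP n) hn0 F p.1 (p.2 + 1))
    · rintro F ⟨v, hv, w, hw1, hw2, hrel⟩
      refine ⟨(v, w - 1), ?_, ?_⟩
      · rw [Finset.mem_product, Finset.mem_range, Finset.mem_range]
        exact ⟨hv, by simp only; omega⟩
      · simp only
        rwa [show w - 1 + 1 = w by omega]
    · intro a b p _ ha hb
      exact VRel_unique hn0 ha hb
  have c2 : s2.encard ≤ (((Finset.range (n - 4)).sigma (fun m => Finset.range m)).card : ℕ∞) := by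
    apply encard_le_of_rel (R := fun F p => CRel n F (p.2 + 1) (p.1 + 2))
    · rintro F ⟨b, d, hb, hbd, hd, hrel⟩
      refine ⟨⟨d - 2, b - 1⟩, ?_, ?_⟩
      · rw [Finset.mem_sigma, Finset.mem_range, Finset.mem_range]
        exact ⟨by simp only; omega, by simp only; omega⟩
      · simp only
        rwa [show b - 1 + 1 = b by omega, show d - 2 + 2 = d by omega]
    · intro a b p hp ha hb
      rw [Finset.mem_sigma, Finset.mem_range, Finset.mem_range] at hp
      exact CRel_unique (by omega) (by omega) ha hb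
  have c3 : ((Finset.range (n - 4)).sigma (fun m => Finset.range m)).card = (n - 4).choose 2 := by
    rw [Finset.card_sigma]
    simp only [Finset.card_range]
    rw [Finset.sum_range_id, Nat.choose_two_right]
  have c4 : ((Finset.range n) ×ˢ (Finset.range (n - 3))).card = n * (n - 3) := by
    rw [Finset.card_product, Finset.card_range, Finset.card_range]
  rw [c3] at c2
  rw [c4] at c1
  calc numTri (PP n) ≤ (s1 ∪ s2).encard := Set.encard_le_encard hsub
    _ ≤ s1.encard + s2.encard := Set.encard_union_le _ _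
    _ ≤ ((n * (n - 3) : ℕ) : ℕ∞) + (((n - 4).choose 2 : ℕ) : ℕ∞) := add_le_add c1 c2
    _ = ((n * (n - 3) + (n - 4).choose 2 : ℕ) : ℕ∞) := by push_cast; rfl
    _ = (((n - 2) ^ 2 + (n - 3).choose 2 : ℕ) : ℕ∞) := by
        congr 1
        obtain ⟨m, rfl⟩ : ∃ m, n = m + 4 := ⟨n - 4, by omega⟩
        rw [show m + 4 - 3 = m + 1 by omega, show m + 4 - 4 = m by omega,
          show m + 4 - 2 = m + 2 by omega, Nat.choose_succ_succ' m 1, Nat.choose_one_right]
        ring

/-- U2 -/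
theorem exists_few {n : ℕ} (hn : 3 ≤ n)
    (hT : ∀ P : Fin n → Pt, Ccw P → ∀ F, IsFace P F ↔ ∃ x ∈ offLines P, F = cell P x) :
    ∃ P : Fin n → Pt, Ccw P ∧ IsGeneric P ∧
      numTri P ≤ (((n - 2) ^ 2 + (n - 3).choose 2 : ℕ) : ℕ∞) :=
  ⟨PP n, ccw_PP n, generic_PP n, few_PP hn (hT (PP n) (ccw_PP n))⟩

end Pool.Agent.H58.Tri
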