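import Pool.Agent.H58.Tri.Vert

/-!
# MP_c17047_co: the drawing with vertices `(10^i, 100^i)`
-/

set_option autoImplicit false

namespace Pool.Agent.H58.Tri

open Pool.H47.Tri

/-- abscissas -/
noncomputable def X (i : ℕ) : ℝ := 10 ^ i

/-- the vertices -/
noncomputable def PP (n : ℕ) : Fin n → Pt := fun i => (X i, X i ^ 2)

/-- the line through the vertices `i` and `j` -/
noncomputable def g (i j : ℕ) (y : Pt) : ℝ := y.2 - (X i + X j) * y.1 + X i * X j

theorem X_pos (i : ℕ) : 0 < X i := by unfold X; positivity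

theorem X_ratio {i j : ℕ} (h : i < j) : 10 * X i ≤ X j := by
  unfold X
  have h1 : (10 : ℝ) ^ (i + 1) ≤ 10 ^ j := pow_le_pow_right₀ (by norm_num) h
  rw [pow_succ] at h1
  linarith

theorem X_lt {i j : ℕ} (h : i < j) : X i < X j := by
  have := X_ratio h
  have := X_pos i
  linarith

theorem X_le {i j : ℕ} (h : i ≤ j) : X i ≤ X j := by
  rcases h.lt_or_eq with h | h
  · exact (X_lt h).le
  · rw [h]

theorem X_lt_iff {i j : ℕ} : X i < X j ↔ i < j := by
  constructor
  · intro h
    by_contra h1
    push Not at h1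
    have := X_le h1
    linarith
  · exact X_lt

theorem X_inj {i j : ℕ} (h : X i = X j) : i = j := by
  rcases lt_trichotomy i j with h1 | h1 | h1
  · have := X_lt h1; linarith
  · exact h1
  · have := X_lt h1; linarith

theorem orient_PP {n : ℕ} (i j : Fin n) (y : Pt) :
    orient (PP n i) (PP n j) y = (X j - X i) * g i j y := by
  simp only [orient, PP, g]; ring

theorem g_comm (i j : ℕ) (y : Pt) : g i j y = g j i y := by
  simp only [g]; ring

theorem g_prod (i j : ℕ) (y : Pt) : g i j y = (y.1 - X i) * (y.1 - X j) - (y.1 ^ 2 - y.2) := by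
  simp only [g]; ring

theorem ccw_PP (n : ℕ) : Ccw (PP n) := by
  intro i j k hij hjk
  rw [orient_PP]
  have h1 : (i : ℕ) < j := hij
  have h2 : (j : ℕ) < k := hjk
  have e : g i j (PP n k) = (X k - X i) * (X k - X j) := by
    simp only [g, PP]; ring
  rw [e]
  have := X_lt h1
  have := X_lt h2
  exact mul_pos (by linarith) (mul_pos (by linarith) (by linarith))

/-- the basic determinant inequality -/
theorem det_pos {a b c d e f : ℕ} (hab : a < b) (hbc : b < c) (hcd : c < d) (hde : d < e)
    (hef : e < f) :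
    (X b * X e - X a * X d) * ((X c + X f) - (X b + X e)) <
      ((X b + X e) - (X a + X d)) * (X c * X f - X b * X e) := by
  have r1 := X_ratio hab
  have r2 := X_ratio hbc
  have r3 := X_ratio hcd
  have r4 := X_ratio hde
  have r5 := X_ratio hef
  have pa := X_pos a
  have pb := X_pos b
  have pc := X_pos c
  have pd := X_pos d
  have pe := X_pos e
  have pf := X_pos f
  -- left hand side
  have l1 : (X b * X e - X a * X d) * ((X c + X f) - (X b + X e)) ≤ (X b * X e) * X f := by
    have h1 : (X c + X f) - (X b + X e) ≤ X f := by linarith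
    have h2 : 0 ≤ (X c + X f) - (X b + X e) := by linarith
    have h3 : X b * X e - X a * X d ≤ X b * X e := by
      have := mul_pos pa pd; linarith
    have h4 : 0 ≤ X b * X e := by positivity
    calc (X b * X e - X a * X d) * ((X c + X f) - (X b + X e))
        ≤ (X b * X e) * ((X c + X f) - (X b + X e)) := mul_le_mul_of_nonneg_right h3 h2
      _ ≤ (X b * X e) * X f := mul_le_mul_of_nonneg_left h1 h4
  have l2 : (X b * X e) * X f ≤ (X c / 10 * X e) * X f := by
    apply mul_le_mul_of_nonneg_right _ pf.le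
    apply mul_le_mul_of_nonneg_right _ pe.le
    linarith
  -- right hand side
  have u1 : 9 / 10 * X e ≤ (X b + X e) - (X a + X d) := by linarith
  have u2 : 9 / 10 * (X c * X f) ≤ X c * X f - X b * X e := by
    have : X b * X e ≤ (X c / 10) * X f := by
      apply mul_le_mul (by linarith) (by linarith) pe.le (by positivity)
    nlinarith
  have u3 : (9 / 10 * X e) * (9 / 10 * (X c * X f)) ≤
      ((X b + X e) - (X a + X d)) * (X c * X f - X b * X e) := by
    apply mul_le_mul u1 u2 (by positivity) (by linarith)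
  have u4 : 0 < X c * X e * X f := by positivity
  nlinarith

theorem slope12 {a b d e : ℕ} (hab : a < b) (hde : d < e) : 0 < (X b + X e) - (X a + X d) := by
  have := X_lt hab
  have := X_lt hde
  linarith

/-- S1 -/
theorem S1 {a b c d e f : ℕ} (hab : a < b) (hbc : b < c) (hcd : c < d) (hde : d < e)
    (hef : e < f) {Z : Pt} (h1 : g b e Z = 0) (h2 : g c f Z = 0) : 0 < g a d Z := by
  have hD := det_pos hab hbc hcd hde hef
  have hs := slope12 hbc hef
  have e1 : ((X c + X f) - (X b + X e)) * Z.1 = X c * X f - X b * X e := by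
    simp only [g] at h1 h2; linarith
  have e2 : ((X c + X f) - (X b + X e)) * g a d Z =
      ((X b + X e) - (X a + X d)) * (X c * X f - X b * X e) -
      (X b * X e - X a * X d) * ((X c + X f) - (X b + X e)) := by
    have : g a d Z = ((X b + X e) - (X a + X d)) * Z.1 - (X b * X e - X a * X d) := by
      simp only [g] at h1 ⊢; linarith
    rw [this]
    calc ((X c + X f) - (X b + X e)) * (((X b + X e) - (X a + X d)) * Z.1 - (X b * X e - X a * X d))
        = ((X b + X e) - (X a + X d)) * (((X c + X f) - (X b + X e)) * Z.1) -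
          (X b * X e - X a * X d) * ((X c + X f) - (X b + X e)) := by ring
      _ = _ := by rw [e1]
  have e3 : 0 < ((X c + X f) - (X b + X e)) * g a d Z := by rw [e2]; linarith
  exact (pos_iff_pos_of_mul_pos e3).1 hs

/-- S2 -/
theorem S2 {a b c d e f : ℕ} (hab : a < b) (hbc : b < c) (hcd : c < d) (hde : d < e)
    (hef : e < f) {Z : Pt} (h1 : g a d Z = 0) (h2 : g b e Z = 0) : 0 < g c f Z := by
  have hD := det_pos hab hbc hcd hde hef
  have hs := slope12 hab hde
  have e1 : ((X b + X e) - (X a + X d)) * Z.1 = X b * X e - X a * X d := by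
    simp only [g] at h1 h2; linarith
  have e2 : ((X b + X e) - (X a + X d)) * g c f Z =
      ((X b + X e) - (X a + X d)) * (X c * X f - X b * X e) -
      (X b * X e - X a * X d) * ((X c + X f) - (X b + X e)) := by
    have : g c f Z = (X c * X f - X b * X e) - ((X c + X f) - (X b + X e)) * Z.1 := by
      simp only [g] at h2 ⊢; linarith
    rw [this]
    calc ((X b + X e) - (X a + X d)) * ((X c * X f - X b * X e) - ((X c + X f) - (X b + X e)) * Z.1)
        = ((X b + X e) - (X a + X d)) * (X c * X f - X b * X e) -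
          (((X b + X e) - (X a + X d)) * Z.1) * ((X c + X f) - (X b + X e)) := by ring
      _ = _ := by rw [e1]
  have e3 : 0 < ((X b + X e) - (X a + X d)) * g c f Z := by rw [e2]; linarith
  exact (pos_iff_pos_of_mul_pos e3).1 hs

/-- S3 -/
theorem S3 {a b c d e f : ℕ} (hab : a < b) (hbc : b < c) (hcd : c < d) (hde : d < e)
    (hef : e < f) {Z : Pt} (h1 : g a d Z = 0) (h2 : g c f Z = 0) : g b e Z < 0 := by
  have hD := det_pos hab hbc hcd hde hef
  have hs := slope12 (hab.trans hbc) (hde.trans hef)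
  have e1 : ((X c + X f) - (X a + X d)) * Z.1 = X c * X f - X a * X d := by
    simp only [g] at h1 h2; linarith
  have e2 : ((X c + X f) - (X a + X d)) * g b e Z =
      (X b * X e - X a * X d) * ((X c + X f) - (X b + X e)) -
      ((X b + X e) - (X a + X d)) * (X c * X f - X b * X e) := by
    have : g b e Z = (X b * X e - X a * X d) - ((X b + X e) - (X a + X d)) * Z.1 := by
      simp only [g] at h1 ⊢; linarith
    rw [this]
    calc ((X c + X f) - (X a + X d)) * ((X b * X e - X a * X d) - ((X b + X e) - (X a + X d)) * Z.1)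
        = (X b * X e - X a * X d) * ((X c + X f) - (X a + X d)) -
          ((X b + X e) - (X a + X d)) * (((X c + X f) - (X a + X d)) * Z.1) := by ring
      _ = _ := by rw [e1]; ring
  have e3 : 0 < ((X c + X f) - (X a + X d)) * (- g b e Z) := by
    have : ((X c + X f) - (X a + X d)) * (- g b e Z) = - (((X c + X f) - (X a + X d)) * g b e Z) := by
      ring
    rw [this, e2]; linarith
  have := (pos_iff_pos_of_mul_pos e3).1 hs
  linarith

/-- two lines with a common vertex meet only there -/
theorem share {m j l : ℕ} {y : Pt} (h1 : g m j y = 0) (h2 : g m l y = 0) (hjl : j ≠ l) :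
    y = (X m, X m ^ 2) := by
  have hne : X j - X l ≠ 0 := fun e => hjl (X_inj (by linarith))
  have e1 : (X j - X l) * (X m - y.1) = 0 := by
    simp only [g] at h1 h2; linarith
  have e2 : y.1 = X m := by
    have := (mul_eq_zero.1 e1).resolve_left hne
    linarith
  have e3 : y.2 = X m ^ 2 := by
    simp only [g] at h1
    rw [e2] at h1
    linarith
  exact Prod.ext e2 e3

/-- crossing chords alternate -/
theorem alternate {i j k l : ℕ} {y : Pt} (h1 : g i j y = 0) (h2 : g k l y = 0) (hik : i < k)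
    (hj : y.1 ≤ X j) (hk : X k ≤ y.1) (hl : y.1 ≤ X l) (hkj : k ≠ j) (hjl : j ≠ l) :
    k < j ∧ j < l := by
  have hkj' : k < j := by
    rcases lt_trichotomy k j with h | h | h
    · exact h
    · exact absurd h hkj
    · have := X_lt h; linarith
  refine ⟨hkj', ?_⟩
  rcases lt_trichotomy j l with h | h | h
  · exact h
  · exact absurd h hjl
  · exfalso
    have e1 : (y.1 - X i) * (X j - y.1) = (y.1 - X k) * (X l - y.1) := by
      rw [g_prod] at h1 h2; linarith
    have a1 := X_lt hik
    have a2 := X_lt h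
    have b1 : 0 < y.1 - X i := by linarith
    have b2 : (y.1 - X k) * (X l - y.1) ≤ (y.1 - X i) * (X l - y.1) :=
      mul_le_mul_of_nonneg_right (by linarith) (by linarith)
    have b3 : (y.1 - X i) * (X l - y.1) < (y.1 - X i) * (X j - y.1) :=
      mul_lt_mul_of_pos_left (by linarith) b1
    linarith

/-! ### genericity -/

theorem seg_bounds {n : ℕ} {i j : Fin n} (hij : i < j) {y : Pt}
    (hy : y ∈ segment ℝ (PP n i) (PP n j)) : g i j y = 0 ∧ X i ≤ y.1 ∧ y.1 ≤ X j := by
  obtain ⟨s, t, hs, ht, hst, rfl⟩ := hy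
  have h1 : (X (i : ℕ)) < X (j : ℕ) := X_lt hij
  have h2 : t = 1 - s := by linarith
  subst h2
  have hs1 : s ≤ 1 := by linarith
  refine ⟨?_, ?_, ?_⟩
  · simp only [g, PP, Prod.fst_add, Prod.snd_add, Prod.smul_fst, Prod.smul_snd, smul_eq_mul]
    ring
  · simp only [PP, Prod.fst_add, Prod.smul_fst, smul_eq_mul]
    nlinarith
  · simp only [PP, Prod.fst_add, Prod.smul_fst, smul_eq_mul]
    nlinarith

/-- three chords with six different end points, sorted by their first end points, have no common
point -/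
theorem no_triple {i j k l r s : ℕ} {y : Pt} (h1 : g i j y = 0) (h2 : g k l y = 0)
    (h3 : g r s y = 0) (hik : i < k) (hkr : k < r)
    (j1 : y.1 ≤ X j) (k1 : X k ≤ y.1) (l1 : y.1 ≤ X l) (r1 : X r ≤ y.1) (s1 : y.1 ≤ X s)
    (hkj : k ≠ j) (hrj : r ≠ j) (hrl : r ≠ l) (hjl : j ≠ l) (hls : l ≠ s) : False := by
  obtain ⟨a1, a2⟩ := alternate h1 h2 hik j1 k1 l1 hkj hjl
  obtain ⟨b1, b2⟩ := alternate h2 h3 hkr l1 r1 s1 hrl hls
  have hrj' : r < j := by
    rcases lt_trichotomy r j with h | h | h
    · exact h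
    · exact absurd h hrj
    · have := X_lt h; linarith
  have := S1 hik hkr hrj' a2 b2 h2 h3
  linarith

theorem generic_PP (n : ℕ) : IsGeneric (PP n) := by
  intro y hy i j k l r s hij hkl hrs h1 h2 h3
  obtain ⟨a1, a2, a3⟩ := seg_bounds hij h1
  obtain ⟨b1, b2, b3⟩ := seg_bounds hkl h2
  obtain ⟨c1, c2, c3⟩ := seg_bounds hrs h3
  have hij' : (i : ℕ) < j := hij
  have hkl' : (k : ℕ) < l := hkl
  have hrs' : (r : ℕ) < s := hrs
  -- no two different pairs share a vertex
  have sh : ∀ (m p q : Fin n), g m p y = 0 → g m q y = 0 → p = q := by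
    intro m p q e1 e2
    by_contra hpq
    apply hy
    refine ⟨m, ?_⟩
    rw [share e1 e2 (fun e => hpq (Fin.ext e))]
    rfl
  by_contra hcon
  push Not at hcon
  obtain ⟨hn1, hn2, hn3⟩ := hcon
  have all : ∀ (i j k l : Fin n), i < j → k < l → g i j y = 0 → g k l y = 0 → (i, j) ≠ (k, l) →
      (i : ℕ) ≠ k ∧ (i : ℕ) ≠ l ∧ (j : ℕ) ≠ k ∧ (j : ℕ) ≠ l := by
    intro i j k l hij hkl e1 e2 hne
    refine ⟨?_, ?_, ?_, ?_⟩
    · intro e
      have e' : i = k := Fin.ext e
      subst e'
      exact hne (by rw [sh i j l e1 e2])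
    · intro e
      have e' : i = l := Fin.ext e
      subst e'
      rw [g_comm] at e2
      have := sh i j k e1 e2
      subst this
      exact absurd hij (not_lt.2 hkl.le)
    · intro e
      have e' : j = k := Fin.ext e
      subst e'
      rw [g_comm] at e1
      have := sh j i l e1 e2
      subst this
      exact absurd hij (not_lt.2 hkl.le)
    · intro e
      have e' : j = l := Fin.ext e
      subst e'
      rw [g_comm] at e1 e2
      exact hne (by rw [sh j i k e1 e2])
  obtain ⟨p1, p2, p3, p4⟩ := all i j k l hij hkl a1 b1 hn1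
  obtain ⟨q1, q2, q3, q4⟩ := all i j r s hij hrs a1 c1 hn2
  obtain ⟨t1, t2, t3, t4⟩ := all k l r s hkl hrs b1 c1 hn3
  rcases lt_or_gt_of_ne p1 with o1 | o1 <;> rcases lt_or_gt_of_ne q1 with o2 | o2 <;>
    rcases lt_or_gt_of_ne t1 with o3 | o3
  · -- i < k < r
    exact no_triple a1 b1 c1 o1 o3 a3 b2 b3 c2 c3 (Ne.symm p3) (Ne.symm q3) (Ne.symm t3) p4 t4
  · -- i < r < k
    exact no_triple a1 c1 b1 o2 o3 a3 c2 c3 b2 b3 (Ne.symm q3) (Ne.symm p3) t2 q4 (Ne.symm t4)
  · -- i < k, r < i, k < r
    omega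
  · -- r < i < k
    exact no_triple c1 a1 b1 o2 o1 c3 a2 a3 b2 b3 q2 t2 (Ne.symm p3) (Ne.symm q4) p4
  · -- k < i < r
    exact no_triple b1 a1 c1 o1 o2 b3 a2 a3 c2 c3 p2 (Ne.symm t3) (Ne.symm q3) (Ne.symm p4) q4
  · omega
  · -- k < r < i
    exact no_triple b1 c1 a1 o3 o2 b3 c2 c3 a2 a3 (Ne.symm t3) p2 q2 t4 (Ne.symm q4)
  · -- r < k < i
    exact no_triple c1 b1 a1 o3 o1 c3 b2 b3 a2 a3 t2 q2 p2 (Ne.symm t4) (Ne.symm p4)

end Pool.Agent.H58.Tri
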