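import Pool.Agent.H58.Tri.Hull

/-!
# MP_c17047_co: cells with a corner at a vertex of the polygon
-/

set_option autoImplicit false

namespace Pool.Agent.H58.Tri

open Pool.H47.Tri

variable {n : ℕ}

/-- periodic extension of the vertices -/
def PN (P : Fin n → Pt) (hn : 0 < n) (k : ℕ) : Pt := P ⟨k % n, Nat.mod_lt _ hn⟩

theorem PN_eq (P : Fin n → Pt) (hn : 0 < n) {k a : ℕ} (ha : a < n) (h : k % n = a) :
    PN P hn k = P ⟨a, ha⟩ := by
  subst h; rfl

theorem PN_congr (P : Fin n → Pt) (hn : 0 < n) {k l : ℕ} (h : k % n = l % n) :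
    PN P hn k = PN P hn l := by
  rw [PN_eq P hn (Nat.mod_lt l hn) h]; rfl

theorem add_mod_cases {k s : ℕ} (hn : 0 < n) (hs : s < n) :
    (k % n + s < n ∧ (k + s) % n = k % n + s) ∨ (n ≤ k % n + s ∧ (k + s) % n = k % n + s - n) := by
  have h1 : (k + s) % n = (k % n + s) % n := by rw [Nat.mod_add_mod]
  have h2 := Nat.mod_lt k hn
  rcases Nat.lt_or_ge (k % n + s) n with h | h
  · left; exact ⟨h, by rw [h1, Nat.mod_eq_of_lt h]⟩
  · right
    refine ⟨h, ?_⟩
    rw [h1, Nat.mod_eq_sub_mod h, Nat.mod_eq_of_lt (by omega)]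

theorem ccw_PN {P : Fin n → Pt} (hn : 0 < n) (h : Ccw P) (k : ℕ) {s t : ℕ} (hs : 0 < s)
    (hst : s < t) (ht : t < n) : 0 < orient (PN P hn k) (PN P hn (k + s)) (PN P hn (k + t)) := by
  have hk := Nat.mod_lt k hn
  have e0 : PN P hn k = P ⟨k % n, hk⟩ := rfl
  rcases add_mod_cases (k := k) hn (show s < n by omega) with ⟨h1, h2⟩ | ⟨h1, h2⟩ <;>
  rcases add_mod_cases (k := k) hn ht with ⟨h3, h4⟩ | ⟨h3, h4⟩
  · rw [e0, PN_eq P hn h1 h2, PN_eq P hn h3 h4]
    exact h _ _ _ (by simp only [Fin.lt_def]; omega) (by simp only [Fin.lt_def]; omega)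
  · rw [e0, PN_eq P hn h1 h2, PN_eq P hn (by omega) h4, orient_cyc, orient_cyc]
    exact h _ _ _ (by simp only [Fin.lt_def]; omega) (by simp only [Fin.lt_def]; omega)
  · omega
  · rw [e0, PN_eq P hn (by omega) h2, PN_eq P hn (by omega) h4, orient_cyc]
    exact h _ _ _ (by simp only [Fin.lt_def]; omega) (by simp only [Fin.lt_def]; omega)

theorem exists_off (P : Fin n → Pt) (hn : 0 < n) (v : ℕ) (i : Fin n) :
    ∃ s < n, (v + s) % n = i.val := by
  have hv := Nat.mod_lt v hn
  have hi := i.isLt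
  rcases Nat.lt_or_ge i.val (v % n) with h | h
  · refine ⟨i.val + n - v % n, by omega, ?_⟩
    rw [← Nat.mod_add_mod]
    have : v % n + (i.val + n - v % n) = i.val + n := by omega
    rw [this, Nat.add_mod_right, Nat.mod_eq_of_lt hi]
  · refine ⟨i.val - v % n, by omega, ?_⟩
    rw [← Nat.mod_add_mod]
    have : v % n + (i.val - v % n) = i.val := by omega
    rw [this, Nat.mod_eq_of_lt hi]

/-- `F` is the cell with a corner at the vertex `v` between the directions `v + w`, `v + w + 1`. -/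
def VRel (P : Fin n → Pt) (hn : 0 < n) (F : Set Pt) (v w : ℕ) : Prop :=
  ∃ x : Pt, F = cell P x ∧
    (∀ s t, 0 < s → s < t → t < n → 0 < orient (PN P hn (v + s)) (PN P hn (v + t)) x) ∧
    (∀ s, 0 < s → s ≤ w → s < n → 0 < orient (PN P hn v) (PN P hn (v + s)) x) ∧
    (∀ s, w < s → s < n → orient (PN P hn v) (PN P hn (v + s)) x < 0)

theorem cell_eq_of_sign {P : Fin n → Pt} {x y : Pt}
    (h : ∀ i j : Fin n, i ≠ j → 0 < orient (P i) (P j) x * orient (P i) (P j) y) :
    cell P x = cell P y := by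
  ext z
  constructor
  · intro hz i j hij
    have h1 := hz i j hij
    have h2 := h i j hij
    rcases mul_pos_iff.1 h1 with ⟨a, b⟩ | ⟨a, b⟩
    · have := (pos_iff_pos_of_mul_pos h2).1 a
      exact mul_pos this b
    · have : orient (P i) (P j) y < 0 := by
        rcases mul_pos_iff.1 h2 with ⟨c, _⟩ | ⟨_, c⟩
        · linarith
        · exact c
      exact mul_pos_of_neg_of_neg this b
  · intro hz i j hij
    have h1 := hz i j hij
    have h2 := h i j hij
    rcases mul_pos_iff.1 h1 with ⟨a, b⟩ | ⟨a, b⟩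
    · have := (pos_iff_pos_of_mul_pos h2).2 a
      exact mul_pos this b
    · have : orient (P i) (P j) x < 0 := by
        rcases mul_pos_iff.1 h2 with ⟨_, c⟩ | ⟨c, _⟩
        · linarith
        · exact c
      exact mul_pos_of_neg_of_neg this b

theorem VRel_unique {P : Fin n → Pt} (hn : 0 < n) {F F' : Set Pt} {v w : ℕ}
    (h : VRel P hn F v w) (h' : VRel P hn F' v w) : F = F' := by
  obtain ⟨x, rfl, a1, a2, a3⟩ := h
  obtain ⟨y, rfl, b1, b2, b3⟩ := h'
  apply cell_eq_of_sign
  have key : ∀ s t, s < t → t < n →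
      0 < orient (PN P hn (v + s)) (PN P hn (v + t)) x *
        orient (PN P hn (v + s)) (PN P hn (v + t)) y := by
    intro s t hst ht
    rcases Nat.eq_zero_or_pos s with rfl | hs
    · rw [Nat.add_zero]
      rcases Nat.lt_or_ge w t with hw | hw
      · exact mul_pos_of_neg_of_neg (a3 t hw ht) (b3 t hw ht)
      · exact mul_pos (a2 t hst hw ht) (b2 t hst hw ht)
    · exact mul_pos (a1 s t hs hst ht) (b1 s t hs hst ht)
  intro i j hij
  obtain ⟨s, hs, es⟩ := exists_off P hn v i
  obtain ⟨t, ht, et⟩ := exists_off P hn v j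
  have e1 : PN P hn (v + s) = P i := by rw [PN_eq P hn i.isLt es]
  have e2 : PN P hn (v + t) = P j := by rw [PN_eq P hn j.isLt et]
  rcases lt_trichotomy s t with hst | hst | hst
  · have := key s t hst ht
    rwa [e1, e2] at this
  · exfalso
    subst hst
    exact hij (Fin.ext (es.symm.trans et))
  · have := key t s hst hs
    rw [e1, e2, orient_swap (P i), orient_swap (P i)] at this
    simpa using this

/-- Plücker relation -/
theorem plucker (v k w s x : Pt) : orient v k x * orient v w s =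
    orient v k s * orient v w x - orient v k w * orient v s x := by
  simp only [orient]; ring

theorem vertex_rel {P : Fin n → Pt} (hn3 : 3 ≤ n) (h : Ccw P) {x : Pt}
    (hx : x ∈ offLines P) {v : ℕ}
    (hv : ∀ i j : Fin n, i ≠ j →
      0 ≤ orient (P i) (P j) x * orient (P i) (P j) (PN P (by omega) v)) :
    ∃ w, 1 ≤ w ∧ w + 2 ≤ n ∧ VRel P (by omega) (cell P x) v w := by
  have hn : 0 < n := by omega
  have hdiff : ∀ s t, s < t → t < n → (⟨(v + s) % n, Nat.mod_lt _ hn⟩ : Fin n) ≠
      ⟨(v + t) % n, Nat.mod_lt _ hn⟩ := by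
    intro s t hst ht e
    have e' : (v + s) % n = (v + t) % n := Fin.mk.inj_iff.1 e
    have h1 := Nat.mod_lt v hn
    rcases add_mod_cases (k := v) hn (show s < n by omega) with ⟨h1, h2⟩ | ⟨h1, h2⟩ <;>
    rcases add_mod_cases (k := v) hn ht with ⟨h3, h4⟩ | ⟨h3, h4⟩ <;> omega
  have hc1 : ∀ s t, 0 < s → s < t → t < n →
      0 < orient (PN P hn (v + s)) (PN P hn (v + t)) x := by
    intro s t hs hst ht
    have h1 := ccw_PN hn h v hs hst ht
    rw [orient_cyc] at h1
    have h2 := hv _ _ (hdiff s t hst ht)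
    have h3 := hx.2 _ _ (hdiff s t hst ht)
    change 0 ≤ orient (PN P hn (v + s)) (PN P hn (v + t)) x *
      orient (PN P hn (v + s)) (PN P hn (v + t)) (PN P hn v) at h2
    change orient (PN P hn (v + s)) (PN P hn (v + t)) x ≠ 0 at h3
    exact lt_of_le_of_ne (nonneg_of_mul_nonneg_left h2 h1) (Ne.symm h3)
  -- `inside`
  have hin := hx.1
  have g1 : 0 < orient (PN P hn v) (PN P hn (v + 1)) x := by
    refine hin _ _ (hdiff 0 1 (by omega) (by omega)) ?_
    intro k hk1 hk2
    obtain ⟨s, hs, es⟩ := exists_off P hn v k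
    have e1 : P k = PN P hn (v + s) := by rw [PN_eq P hn k.isLt es]
    have hs0 : s ≠ 0 := by
      rintro rfl
      exact hk1 (Fin.ext es.symm)
    have hs1 : s ≠ 1 := by
      rintro rfl
      exact hk2 (Fin.ext es.symm)
    rw [e1]
    exact ccw_PN hn h v (by omega) (by omega) hs
  have g2 : orient (PN P hn v) (PN P hn (v + (n - 1))) x < 0 := by
    have h1 : 0 < orient (PN P hn (v + (n - 1))) (PN P hn v) x := by
      refine hin _ _ (Ne.symm (hdiff 0 (n - 1) (by omega) (by omega))) ?_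
      intro k hk1 hk2
      obtain ⟨s, hs, es⟩ := exists_off P hn v k
      have e1 : P k = PN P hn (v + s) := by rw [PN_eq P hn k.isLt es]
      have hs0 : s ≠ 0 := by
        rintro rfl
        exact hk2 (Fin.ext es.symm)
      have hs1 : s ≠ n - 1 := by
        rintro rfl
        exact hk1 (Fin.ext es.symm)
      rw [e1]
      have := ccw_PN hn h v (s := s) (t := n - 1) (by omega) (by omega) (by omega)
      rw [orient_cyc, orient_cyc] at this
      exact this
    rw [orient_swap] at h1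
    linarith
  have hne : ∀ s, 0 < s → s < n → orient (PN P hn v) (PN P hn (v + s)) x ≠ 0 :=
    fun s hs hsn => hx.2 _ _ (hdiff 0 s hs hsn)
  have hmono : ∀ r s, 0 < r → r < s → s < n → 0 < orient (PN P hn v) (PN P hn (v + s)) x →
      0 < orient (PN P hn v) (PN P hn (v + r)) x := by
    intro r s hr hrs hs hpos
    rcases Nat.eq_or_lt_of_le (show 1 ≤ r from hr) with rfl | hr1
    · exact g1
    have p1 := ccw_PN hn h v (s := 1) (t := s) (by omega) (by omega) hs
    have p2 := ccw_PN hn h v (s := r) (t := s) (by omega) hrs hs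
    have p3 := ccw_PN hn h v (s := 1) (t := r) (by omega) hr1 (by omega)
    have hpl := plucker (PN P hn v) (PN P hn (v + r)) (PN P hn (v + 1)) (PN P hn (v + s)) x
    rw [orient_swap' (PN P hn v) (PN P hn (v + 1)) (PN P hn (v + r))] at hpl
    have : 0 < orient (PN P hn v) (PN P hn (v + r)) x *
        orient (PN P hn v) (PN P hn (v + 1)) (PN P hn (v + s)) := by
      rw [hpl]
      have := mul_pos p2 g1
      have := mul_pos p3 hpos
      nlinarith
    exact (pos_iff_pos_of_mul_pos this).2 p1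
  classical
  have hex : ∃ s, 0 < s ∧ s < n ∧ orient (PN P hn v) (PN P hn (v + s)) x < 0 :=
    ⟨n - 1, by omega, by omega, g2⟩
  obtain ⟨hs0, hsn, hs⟩ := Nat.find_spec hex
  have hmin : ∀ m, m < Nat.find hex → ¬ (0 < m ∧ m < n ∧ orient (PN P hn v) (PN P hn (v + m)) x < 0) :=
    fun m hm => Nat.find_min hex hm
  set s0 := Nat.find hex with hs0def
  have hs1 : s0 ≠ 1 := by
    intro e
    rw [e] at hs
    linarith
  refine ⟨s0 - 1, by omega, by omega, x, rfl, hc1, ?_, ?_⟩
  · intro s hs' hsw hsn'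
    have h1 := hmin s (by omega)
    have h2 := hne s hs' hsn'
    by_contra h3
    push Not at h3
    exact h1 ⟨hs', hsn', lt_of_le_of_ne h3 h2⟩
  · intro s hsw hsn'
    rcases Nat.eq_or_lt_of_le (show s0 ≤ s by omega) with e | hlt
    · rw [← e]; exact hs
    · by_contra h3
      push Not at h3
      have h4 : 0 < orient (PN P hn v) (PN P hn (v + s)) x :=
        lt_of_le_of_ne h3 (Ne.symm (hne s (by omega) hsn'))
      have := hmono s0 s hs0 hlt hsn' h4
      linarith

theorem VRel_shift {P : Fin n → Pt} (hn3 : 3 ≤ n) {F : Set Pt} {v : ℕ}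
    (h : VRel P (by omega) F v (n - 2)) : VRel P (by omega) F (v + (n - 1)) 1 := by
  have hn : 0 < n := by omega
  obtain ⟨x, rfl, a1, a2, a3⟩ := h
  have hsh : ∀ s, 0 < s → PN P hn (v + (n - 1) + s) = PN P hn (v + (s - 1)) := by
    intro s hs
    apply PN_congr
    have : v + (n - 1) + s = v + (s - 1) + n := by omega
    rw [this, Nat.add_mod_right]
  refine ⟨x, rfl, ?_, ?_, ?_⟩
  · intro s t hs hst ht
    rw [hsh s hs, hsh t (by omega)]
    rcases Nat.eq_or_lt_of_le (show 1 ≤ s from hs) with rfl | hs1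
    · exact a2 (t - 1) (by omega) (by omega) (by omega)
    · exact a1 (s - 1) (t - 1) (by omega) (by omega) (by omega)
  · intro s hs hs1 hsn
    have : s = 1 := by omega
    subst this
    rw [hsh 1 (by omega), orient_swap]
    have := a3 (n - 1) (by omega) (by omega)
    simpa using this
  · intro s hs hsn
    rw [hsh s (by omega), orient_swap]
    have := a1 (s - 1) (n - 1) (by omega) (by omega) (by omega)
    linarith

theorem VRel_mod {P : Fin n → Pt} (hn : 0 < n) {F : Set Pt} {v w : ℕ}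
    (h : VRel P hn F v w) : VRel P hn F (v % n) w := by
  obtain ⟨x, rfl, a1, a2, a3⟩ := h
  have hsh : ∀ s, PN P hn (v % n + s) = PN P hn (v + s) := by
    intro s
    apply PN_congr
    rw [Nat.mod_add_mod]
  have hsh0 : PN P hn (v % n) = PN P hn v := hsh 0
  refine ⟨x, rfl, ?_, ?_, ?_⟩
  · intro s t hs hst ht
    rw [hsh, hsh]; exact a1 s t hs hst ht
  · intro s hs hs1 hsn
    rw [hsh, hsh0]; exact a2 s hs hs1 hsn
  · intro s hs hsn
    rw [hsh, hsh0]; exact a3 s hs hsn

/-- the index of a cell with a corner at a vertex -/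
theorem vertex_index {P : Fin n → Pt} (hn4 : 4 ≤ n) (h : Ccw P) {x : Pt}
    (hx : x ∈ offLines P) (v : Fin n)
    (hv : ∀ i j : Fin n, i ≠ j → 0 ≤ orient (P i) (P j) x * orient (P i) (P j) (P v)) :
    ∃ v' < n, ∃ w, 1 ≤ w ∧ w + 3 ≤ n ∧ VRel P (by omega) (cell P x) v' w := by
  have hn : 0 < n := by omega
  have e : P v = PN P hn v.val := by rw [PN_eq P hn v.isLt (Nat.mod_eq_of_lt v.isLt)]
  rw [e] at hv
  obtain ⟨w, hw1, hw2, hrel⟩ := vertex_rel (by omega) h hx hv
  rcases Nat.lt_or_ge (w + 2) n with hlt | hge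
  · exact ⟨v.val, v.isLt, w, hw1, by omega, hrel⟩
  · have hw : w = n - 2 := by omega
    subst hw
    exact ⟨_, Nat.mod_lt _ hn, 1, le_refl _, by omega, VRel_mod hn (VRel_shift (by omega) hrel)⟩

/-- for `n = 3` there is at most one cell -/
theorem cell_three {P : Fin 3 → Pt} (h : Ccw P) {x y : Pt} (hx : x ∈ offLines P)
    (hy : y ∈ offLines P) : cell P x = cell P y := by
  have h3 : (3 : ℕ) ≤ 3 := le_refl _
  have h0 := h 0 1 2 (by decide) (by decide)
  apply cell_eq_of_sign
  have side : ∀ i j k : Fin 3, i ≠ j → k ≠ i → k ≠ j → 0 < orient (P i) (P j) (P k) →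
      0 < orient (P i) (P j) x ∧ 0 < orient (P i) (P j) y := by
    intro i j k hij hki hkj hp
    have hall : ∀ l, l ≠ i → l ≠ j → 0 < orient (P i) (P j) (P l) := by
      intro l hl1 hl2
      have : l = k := by omega
      rw [this]; exact hp
    exact ⟨hx.1 i j hij hall, hy.1 i j hij hall⟩
  have c1 : 0 < orient (P 0) (P 1) (P 2) := h0
  have c2 : 0 < orient (P 1) (P 2) (P 0) := by rw [orient_cyc] at h0; exact h0
  have c3 : 0 < orient (P 2) (P 0) (P 1) := by rw [orient_cyc, orient_cyc] at h0; exact h0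
  obtain ⟨a1, b1⟩ := side 0 1 2 (by decide) (by decide) (by decide) c1
  obtain ⟨a2, b2⟩ := side 1 2 0 (by decide) (by decide) (by decide) c2
  obtain ⟨a3, b3⟩ := side 2 0 1 (by decide) (by decide) (by decide) c3
  have sw : ∀ i j : Fin 3, 0 < orient (P i) (P j) x * orient (P i) (P j) y →
      0 < orient (P j) (P i) x * orient (P j) (P i) y := by
    intro i j hp
    rw [orient_swap (P i) (P j) x, orient_swap (P i) (P j) y]
    simpa using hp
  have m1 := mul_pos a1 b1
  have m2 := mul_pos a2 b2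
  have m3 := mul_pos a3 b3
  intro i j hij
  fin_cases i <;> fin_cases j
  · exact absurd rfl hij
  · exact m1
  · exact sw _ _ m3
  · exact sw _ _ m1
  · exact absurd rfl hij
  · exact m2
  · exact m3
  · exact sw _ _ m2
  · exact absurd rfl hij

end Pool.Agent.H58.Tri
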